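import Mathlib
import Pool.Agent.Lib.P38fcf4.Defs
import Pool.Agent.Lib.P38fcf4.Two

set_option autoImplicit false

namespace Pool.Agent.Results.MP_38fcf4_al.Classification

open Module Pool.Agent.Lib.P38fcf4

/-- Determination of all third elements compatible with a Leonard pair `A, B` (`B = A^*`), over
every field and in every dimension. Let `A, B` be a Leonard pair on `V`. A linear map `E`
satisfies (i)-(iv) if and only if one of the following holds.

* `dim V = 1` (no condition on `E`).
* `dim V = 2` and no eigenvector of `E` is an eigenvector of `A` or of `B`.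
* `dim V ≥ 3` and `E` lies in one of the families `FamilyOne` (`β ≠ 2`,
  `E = x ((A - τ) (B - τ') - t (B - τ') (A - τ)) + y`, `t + t⁻¹ = β`), `FamilyTwo` (`β = 2`,
  `γ = γ' = 0`, `E = x₀ + x₁ A + x₂ B + x₃ (A B - B A)`), `FamilyThree`
  (`E = x₀ + x₁ A + x₂ B`, and `dim V = 3` or `β = 2`, `x₁ γ = x₂ γ'`), each with the
  nondegeneracy conditions stated in its definition; here `β, γ, γ', …` are scalars for which
  `A, B` satisfy the Askey-Wilson relations (unique if `dim V ≥ 4`). -/
theorem result {K : Type*} [Field K] {V : Type*} [AddCommGroup V] [Module K V]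
    [FiniteDimensional K V] [Nontrivial V] (A B : Module.End K V) (hAB : IsLeonardPair A B)
    (E : Module.End K V) :
    Compatible A B E ↔
      finrank K V = 1 ∨
      (finrank K V = 2 ∧ ∀ v : V, v ≠ 0 → ∀ c : K, E v = c • v →
        (∀ a : K, A v ≠ a • v) ∧ ∀ a : K, B v ≠ a • v) ∨
      (3 ≤ finrank K V ∧ (FamilyOne A B E ∨ FamilyTwo A B E ∨ FamilyThree A B E)) := by
  have hLP : LP (finrank K V) A B := hAB
  have hpos : 0 < finrank K V := finrank_pos
  constructor
  · intro h
    rcases Nat.lt_or_ge (finrank K V) 3 with hlt | hge
    · rcases Nat.lt_or_ge (finrank K V) 2 with h1 | h2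
      · left
        omega
      · right; left
        have hn : finrank K V = 2 := by omega
        refine ⟨hn, ?_⟩
        rw [hn] at hLP
        exact (compatible_two hLP E).mp h
    · right; right
      refine ⟨hge, ?_⟩
      rcases necessity hge rfl hLP h with h' | h'
      · rcases h'.family with h'' | h''
        · exact Or.inl h''
        · exact Or.inr (Or.inl h'')
      · exact Or.inr (Or.inr h')
  · rintro (hn | ⟨hn, h⟩ | ⟨hn, h | h | h⟩)
    · rw [hn] at hLP
      obtain ⟨⟨b, _, _⟩, _⟩ := hLP
      exact compatible_one b A B E
    · rw [hn] at hLP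
      exact (compatible_two hLP E).mpr h
    · exact h.unified.compatible
    · rcases h.unified with h' | h'
      · exact h'.compatible
      · exact h'.compatible hLP
    · exact h.compatible hLP

end Pool.Agent.Results.MP_38fcf4_al.Classification
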